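import Pool.Agent.H21.MinG

set_option autoImplicit false

namespace Pool.Agent.Results.MP_35204b_gt.CMinimal

open Pool.Agent.H21.MinG

universe u v

theorem result : ∀ (A : Type u) (K : Type v) [CommGroup A] [TopologicalSpace A]
    [IsTopologicalGroup A] [T2Space A] [Group K] [TopologicalSpace K] [IsTopologicalGroup K]
    [CompactSpace K] [T2Space K], IsMinimal A →
      ∀ H : Subgroup (A × K), IsClosed (H : Set (A × K)) → IsMinimal H :=
  fun _ _ _ _ _ _ _ _ _ _ _ hA H hH => main1 hA H hH

end Pool.Agent.Results.MP_35204b_gt.CMinimal
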