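import Pool.Agent.H17.Min

namespace Pool.Agent.Results.MP_35204b_gt.Q1

open Pool.Agent.H17.Min Set Filter Topology

theorem result (A K : Type*) [CommGroup A] [TopologicalSpace A] [IsTopologicalGroup A] [T2Space A]
    [Group K] [TopologicalSpace K] [IsTopologicalGroup K] [CompactSpace K] [T2Space K]
    (hA : IsMinimal A) (H : Subgroup (A × K)) (hH : IsClosed (H : Set (A × K))) : IsMinimal H := by
  refine fun s hs ht hle => @finish H H _ instTopologicalSpaceSubtype _ s hs
    instTopologicalSpaceSubtype ?_ (MonoidHom.id H) ?_ hle ?_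
  · clear ht hle hs s
    infer_instance
  · clear ht hle hs s
    exact continuous_id
  exact fun O hO hO' => @main A K A H _ _ _ _ _ _ _ _ hA _ s hs ht H hH (MonoidHom.id H)
    (continuous_id_iff_le.2 hle) Function.surjective_id (MonoidHom.id A) IsOpenQuotientMap.id
    ((MonoidHom.fst A K).comp H.subtype) (fun _ => rfl) (fun a ha => ⟨1, rfl, ha.symm⟩) O hO hO'

end Pool.Agent.Results.MP_35204b_gt.Q1
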