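import Pool.Agent.H17.Min

namespace Pool.Agent.Results.MP_35204b_gt.Q2

open Pool.Agent.H17.Min Set Filter Topology

theorem result (A K : Type*) [CommGroup A] [TopologicalSpace A] [IsTopologicalGroup A] [T2Space A]
    [Group K] [TopologicalSpace K] [IsTopologicalGroup K] [CompactSpace K] [T2Space K]
    (hA : IsTotallyMinimal A) (H : Subgroup (A × K)) (hH : IsClosed (H : Set (A × K))) :
    IsTotallyMinimal H := by
  intro N _ hN
  have g : IsTopologicalGroup (H ⧸ N) := inferInstance
  let p : H →* A := (MonoidHom.fst A K).comp H.subtype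
  have hM : IsClosed (N.map p : Set A) := by
    have := isClosedMap_fst_of_compactSpace _ (hH.isClosedEmbedding_subtypeVal.isClosedMap _ hN)
    rw [image_image] at this
    exact this
  intro s hs ht hle
  refine @finish H (H ⧸ N) _ _ _ s hs (QuotientGroup.instTopologicalSpace N) g
    (QuotientGroup.mk' N) QuotientGroup.continuous_mk hle fun O hO hO' => ?_
  refine @main A K (A ⧸ N.map p) (H ⧸ N) _ _ _ _ _ _ _ _ (hA _ hM) _ s hs ht H hH
    (QuotientGroup.mk' N) (continuous_le_rng hle QuotientGroup.continuous_mk)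
    (QuotientGroup.mk'_surjective N) (QuotientGroup.mk' (N.map p))
    QuotientGroup.isOpenQuotientMap_mk (QuotientGroup.map N (N.map p) p (N.le_comap_map p))
    (fun _ => rfl) (fun a ha => ?_) O hO hO'
  obtain ⟨n, hn, e⟩ := (QuotientGroup.eq_one_iff a).1 ha
  exact ⟨n, (QuotientGroup.eq_one_iff n).2 hn, e⟩

end Pool.Agent.Results.MP_35204b_gt.Q2
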